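import Mathlib

open IsLocalRing Polynomial

namespace Pool.Agent.H.MP_9a1833_al

variable {R : Type*} [CommRing R]

/-- the generic element -/
noncomputable def gen (y : ℕ → R) (t : ℕ) : R[X] := ∑ i ∈ Finset.range t, C (y i) * X ^ i

lemma gen_succ (y : ℕ → R) (t : ℕ) : gen y (t + 1) = gen y t + C (y t) * X ^ t := by
  simp [gen, Finset.sum_range_succ]

lemma coeff_gen (y : ℕ → R) (t k : ℕ) : (gen y t).coeff k = if k < t then y k else 0 := by
  simp [gen, coeff_C_mul, coeff_X_pow]

lemma natDegree_gen_le (y : ℕ → R) (t : ℕ) : (gen y (t + 1)).natDegree ≤ t := by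
  rw [natDegree_le_iff_coeff_eq_zero]
  intro N hN
  rw [coeff_gen, if_neg (by omega)]

lemma gen_mem (m : Ideal R) (y : ℕ → R) (hy : ∀ i, y i ∈ m) (t : ℕ) :
    gen y t ∈ m.map (C : R →+* R[X]) := by
  rw [Ideal.mem_map_C_iff]
  intro k
  rw [coeff_gen]
  split_ifs
  · exact hy k
  · exact m.zero_mem

lemma mccoy (m : Ideal R) (e : ℕ) (y : ℕ → R) (hy : ∀ i, y i ∈ m) (n0 : ℕ)
    (hRR : ∀ j, n0 ≤ j → ∀ z : R, (∀ i < e, y i * z ∈ m ^ (j + 1)) → z ∈ m ^ j) :
    ∀ d : ℕ, ∀ j, n0 ≤ j → ∀ g : R[X], (∀ k, d ≤ k → g.coeff k = 0) →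
      gen y e * g ∈ (m ^ (j + 1)).map (C : R →+* R[X]) → g ∈ (m ^ j).map (C : R →+* R[X]) := by
  intro d
  induction d with
  | zero =>
    intro j _ g hg _
    have : g = 0 := by ext k; simpa using hg k (Nat.zero_le _)
    rw [this]; exact Ideal.zero_mem _
  | succ d ih =>
    intro j hj g hg hx
    have hdeg : g.natDegree ≤ d := by
      rw [natDegree_le_iff_coeff_eq_zero]
      intro N hN; exact hg N (by omega)
    have key : ∀ t : ℕ, gen y t * g ∈ (m ^ (j + 1)).map (C : R →+* R[X]) →
        ∀ i < t, C (y i) * g ∈ (m ^ (j + 1)).map (C : R →+* R[X]) := by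
      intro t
      induction t with
      | zero => intro _ i hi; omega
      | succ t iht =>
        intro ht
        have h1 : y t * g.coeff d ∈ m ^ (j + 1) := by
          have := (Ideal.mem_map_C_iff.1 ht) (t + d)
          rw [coeff_mul_add_eq_of_natDegree_le (natDegree_gen_le y t) hdeg, coeff_gen,
            if_pos (by omega)] at this
          exact this
        have h2 : C (y t * g.coeff d) * X ^ d ∈ (m ^ (j + 1)).map (C : R →+* R[X]) :=
          Ideal.mul_mem_right _ _ (Ideal.mem_map_of_mem _ h1)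
        have h3 : C (y t) * g - C (y t * g.coeff d) * X ^ d ∈
            (m ^ (j + 1)).map (C : R →+* R[X]) := by
          apply ih (j + 1) (by omega)
          · intro k hk
            rw [coeff_sub, coeff_C_mul, coeff_C_mul, coeff_X_pow]
            rcases Nat.eq_or_lt_of_le hk with h | h
            · subst h; simp
            · rw [hg k (by omega), if_neg (by omega)]; simp
          · have e1 : gen y e * (C (y t) * g - C (y t * g.coeff d) * X ^ d) =
                C (y t) * (gen y e * g) - gen y e * (C (y t * g.coeff d) * X ^ d) := by ring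
            rw [e1, pow_succ' m (j + 1), Ideal.map_mul]
            exact Ideal.sub_mem _ (Ideal.mul_mem_mul (Ideal.mem_map_of_mem _ (hy t)) hx)
              (Ideal.mul_mem_mul (gen_mem m y hy e) h2)
        have h4 : C (y t) * g ∈ (m ^ (j + 1)).map (C : R →+* R[X]) := by
          have := Ideal.add_mem _ h3 h2
          simpa using this
        have h5 : gen y t * g ∈ (m ^ (j + 1)).map (C : R →+* R[X]) := by
          have e1 : gen y t * g = gen y (t + 1) * g - (C (y t) * g) * X ^ t := by
            rw [gen_succ]; ring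
          rw [e1]
          exact Ideal.sub_mem _ ht (Ideal.mul_mem_right _ _ h4)
        intro i hi
        rcases Nat.eq_or_lt_of_le (Nat.lt_succ_iff.1 hi) with h | h
        · subst h; exact h4
        · exact iht h5 i h
    rw [Ideal.mem_map_C_iff]
    intro k
    apply hRR j hj
    intro i hi
    have := (Ideal.mem_map_C_iff.1 (key e hx i hi)) k
    rwa [coeff_C_mul] at this

/-- Ratliff-Rush -/
lemma ratliff [IsNoetherianRing R] [IsDomain R] (m : Ideal R) (hm : m ≠ ⊥) :
    ∃ n0 : ℕ, ∀ j, n0 ≤ j → ∀ z : R, (∀ y ∈ m, y * z ∈ m ^ (j + 1)) → z ∈ m ^ j := by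
  obtain ⟨y, hym, hy0⟩ := Submodule.exists_mem_ne_zero_of_ne_bot hm
  let F : m.Filtration R :=
    { N := fun n => Ideal.span {y} * (m ^ (n + 1)).colon (m : Set R)
      mono := fun n => by
        apply Ideal.mul_mono_right
        intro z hz
        rw [Submodule.mem_colon] at hz ⊢
        intro p hp
        exact Ideal.pow_le_pow_right (by omega) (hz p hp)
      smul_le := fun n => by
        rw [smul_eq_mul, ← mul_assoc, mul_comm m, mul_assoc]
        apply Ideal.mul_mono_right
        rw [Ideal.mul_le]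
        intro r hr s hs
        rw [Submodule.mem_colon] at hs ⊢
        intro p hp
        rw [smul_eq_mul, mul_assoc, pow_succ' m (n + 1)]
        exact Ideal.mul_mem_mul hr (hs p hp) }
  have hle : F ≤ m.stableFiltration m := by
    intro n
    change Ideal.span {y} * (m ^ (n + 1)).colon (m : Set R) ≤ m ^ n • m
    rw [smul_eq_mul, ← pow_succ, Ideal.span_singleton_mul_le_iff]
    intro z hz
    rw [Submodule.mem_colon] at hz
    have := hz y hym
    rwa [smul_eq_mul, mul_comm] at this
  obtain ⟨n0, hn0⟩ := (m.stableFiltration_stable m).of_le hle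
  refine ⟨n0 + 1, fun j hj z hz => ?_⟩
  obtain ⟨n, rfl⟩ : ∃ n, j = n + 1 := ⟨j - 1, by omega⟩
  have h1 := hn0 n (by omega)
  change m • (Ideal.span {y} * (m ^ (n + 1)).colon (m : Set R)) =
    Ideal.span {y} * (m ^ (n + 1 + 1)).colon (m : Set R) at h1
  have h2 : y * z ∈ Ideal.span {y} * (m ^ (n + 1 + 1)).colon (m : Set R) := by
    apply Ideal.mul_mem_mul (Ideal.mem_span_singleton_self y)
    rw [Submodule.mem_colon]
    intro p hp
    rw [smul_eq_mul, mul_comm]; exact hz p hp
  rw [← h1, smul_eq_mul, ← mul_assoc, mul_comm m, mul_assoc] at h2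
  have h3 : m * (m ^ (n + 1)).colon (m : Set R) ≤ m ^ (n + 1) := by
    rw [Ideal.mul_le]
    intro r hr s hs
    rw [Submodule.mem_colon] at hs
    have := hs r hr
    rwa [smul_eq_mul, mul_comm] at this
  have h4 := Ideal.mul_mono_right (I := Ideal.span {y}) h3 h2
  rw [Ideal.mem_span_singleton_mul] at h4
  obtain ⟨w, hw, hw2⟩ := h4
  rwa [← mul_left_cancel₀ hy0 hw2]

/-- purity -/
lemma purity [IsLocalRing R] (J : Ideal R) (s g : R[X])
    (hs : s ∉ (maximalIdeal R).map (C : R →+* R[X])) (h : s * g ∈ J.map (C : R →+* R[X])) :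
    g ∈ J.map (C : R →+* R[X]) := by
  have hker : ∀ p : R[X], p ∈ J.map (C : R →+* R[X]) ↔ p.map (Ideal.Quotient.mk J) = 0 := by
    intro p
    rw [Ideal.mem_map_C_iff, Polynomial.ext_iff]
    simp [Ideal.Quotient.eq_zero_iff_mem]
  rw [hker] at h ⊢
  rw [Polynomial.map_mul] at h
  have hnz : s.map (Ideal.Quotient.mk J) ∈ nonZeroDivisors (R ⧸ J)[X] := by
    by_contra hc
    obtain ⟨a, ha0, ha⟩ := Polynomial.notMem_nonZeroDivisors_iff.1 hc
    rw [Ideal.mem_map_C_iff] at hs
    push Not at hs
    obtain ⟨k, hk⟩ := hs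
    have hu : IsUnit (s.coeff k) := by
      by_contra hu; exact hk ((mem_maximalIdeal _).2 hu)
    have h1 : a * Ideal.Quotient.mk J (s.coeff k) = 0 := by
      have := congrArg (fun p => p.coeff k) ha
      simpa using this
    exact ha0 ((hu.map (Ideal.Quotient.mk J)).mul_left_eq_zero.1 h1)
  exact (mem_nonZeroDivisors_iff.1 hnz).1 _ h

end Pool.Agent.H.MP_9a1833_al
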