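import Mathlib
import Pool.Agent.H.MP_9a1833_al.Poly

open IsLocalRing Polynomial

namespace Pool.Agent.H.MP_9a1833_al

variable {R : Type*} [CommRing R]

/-- colength of an ideal -/
noncomputable def ell (J : Ideal R) : ℕ∞ := Module.length R (R ⧸ J)

lemma ell_eq (J : Ideal R) : ell J = Order.coheight J := Module.length_quotient

lemma ell_anti {J J' : Ideal R} (h : J ≤ J') : ell J' ≤ ell J := by
  rw [ell_eq, ell_eq]; exact Order.coheight_anti h

lemma eq_of_ell_le {J J' : Ideal R} (h : J ≤ J') (hf : ell J ≠ ⊤) (h2 : ell J ≤ ell J') :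
    J = J' := by
  by_contra hne
  have hlt : J < J' := lt_of_le_of_ne h hne
  have h3 : ell J' < ⊤ := lt_of_le_of_lt (ell_anti h) hf.lt_top
  rw [ell_eq] at h3
  have := Order.coheight_strictAnti hlt h3
  rw [← ell_eq, ← ell_eq] at this
  exact absurd h2 (not_le.2 this)

lemma ell_colon (x : R) (U V : Ideal R) (h : ∀ z, x * z ∈ V ↔ z ∈ U) :
    ell V = ell U + ell (Ideal.span {x} ⊔ V) := by
  let f : (R ⧸ U) →ₗ[R] (R ⧸ V) := Submodule.mapQ U V (LinearMap.mulLeft R x)
    (fun z hz => (h z).2 hz)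
  let g : (R ⧸ V) →ₗ[R] (R ⧸ (Ideal.span {x} ⊔ V)) := Submodule.factor le_sup_right
  refine Module.length_eq_add_of_exact f g ?_ ?_ ?_
  · rw [injective_iff_map_eq_zero]
    intro a ha
    obtain ⟨z, rfl⟩ := Submodule.Quotient.mk_surjective U a
    have : x * z ∈ V := (Submodule.Quotient.mk_eq_zero V).1 ha
    exact (Submodule.Quotient.mk_eq_zero U).2 ((h z).1 this)
  · exact Submodule.factor_surjective _
  · intro a
    obtain ⟨z, rfl⟩ := Submodule.Quotient.mk_surjective V a
    constructor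
    · intro ha
      have : z ∈ Ideal.span {x} ⊔ V := (Submodule.Quotient.mk_eq_zero _).1 ha
      obtain ⟨u, hu, v, hv, rfl⟩ := Submodule.mem_sup.1 this
      obtain ⟨w, rfl⟩ := Ideal.mem_span_singleton'.1 hu
      refine ⟨Submodule.Quotient.mk w, ?_⟩
      change Submodule.Quotient.mk (x * w) = _
      rw [Submodule.Quotient.eq]
      have : x * w - (w * x + v) = -v := by ring
      rw [this]; exact V.neg_mem hv
    · rintro ⟨b, hb⟩
      obtain ⟨w, rfl⟩ := Submodule.Quotient.mk_surjective U b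
      rw [← hb]
      change Submodule.Quotient.mk (x * w) = 0
      rw [Submodule.Quotient.mk_eq_zero]
      exact Submodule.mem_sup_left (Ideal.mul_mem_right _ _ (Ideal.mem_span_singleton_self x))

lemma ell_mul [IsDomain R] (x : R) (hx : x ≠ 0) (U : Ideal R) :
    ell (Ideal.span {x} * U) = ell U + ell (Ideal.span {x}) := by
  have := ell_colon x U (Ideal.span {x} * U) (fun z => by
    constructor
    · intro hz
      obtain ⟨w, hw, hw2⟩ := Ideal.mem_span_singleton_mul.1 hz
      rwa [← mul_left_cancel₀ hx hw2]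
    · intro hz; exact Ideal.mul_mem_mul (Ideal.mem_span_singleton_self x) hz)
  rwa [sup_eq_left.2 Ideal.mul_le_left] at this

section ext
variable (R) [IsLocalRing R]

/-- the extended maximal ideal -/
noncomputable abbrev PP : Ideal R[X] := (maximalIdeal R).map (C : R →+* R[X])

/-- the Nagata ring -/
abbrev SS : Type _ := Localization.AtPrime (PP R)

variable {R}

lemma map_SS (J : Ideal R) : J.map (algebraMap R (SS R)) =
    (J.map (C : R →+* R[X])).map (algebraMap R[X] (SS R)) := by
  rw [Ideal.map_map, IsScalarTower.algebraMap_eq R R[X] (SS R), Polynomial.algebraMap_eq]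

lemma map_max : (maximalIdeal R).map (algebraMap R (SS R)) = maximalIdeal (SS R) := by
  rw [map_SS]; exact Localization.AtPrime.map_eq_maximalIdeal

lemma mem_map_SS (J : Ideal R) (g : R[X]) (s : (PP R).primeCompl) :
    IsLocalization.mk' (SS R) g s ∈ J.map (algebraMap R (SS R)) ↔
      g ∈ J.map (C : R →+* R[X]) := by
  rw [map_SS, IsLocalization.mk'_mem_map_algebraMap_iff (PP R).primeCompl]
  constructor
  · rintro ⟨t, ht, h⟩
    exact purity J t g ht h
  · intro h; exact ⟨1, one_mem _, by simpa using h⟩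

instance : IsLocalHom (algebraMap R (SS R)) := by
  constructor
  intro a ha
  by_contra hu
  have h1 : a ∈ maximalIdeal R := (mem_maximalIdeal _).2 hu
  have h2 : algebraMap R (SS R) a ∈ maximalIdeal (SS R) := by
    rw [← map_max]; exact Ideal.mem_map_of_mem _ h1
  exact (mem_maximalIdeal _).1 h2 ha

instance : Module.Flat R (SS R) := Module.Flat.trans R R[X] (SS R)

lemma ell_map (J : Ideal R) : ell (J.map (algebraMap R (SS R))) = ell J := by
  unfold ell
  rw [(Algebra.TensorProduct.quotIdealMapEquivTensorQuot (SS R) J).toLinearEquiv.length_eq,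
    IsLocalRing.length_baseChange, map_max]
  have : IsSimpleModule (SS R) (SS R ⧸ maximalIdeal (SS R)) :=
    isSimpleModule_iff_isCoatom.2 (Ideal.isMaximal_def.1 inferInstance)
  rw [Module.length_eq_one (SS R) (SS R ⧸ maximalIdeal (SS R)), mul_one]

lemma colon_SS (J : Ideal R) (z : SS R)
    (h : ∀ y ∈ maximalIdeal R, algebraMap R (SS R) y * z ∈ J.map (algebraMap R (SS R))) :
    z ∈ (J.colon (maximalIdeal R : Set R)).map (algebraMap R (SS R)) := by
  obtain ⟨⟨g, s⟩, rfl⟩ := IsLocalization.mk'_surjective (PP R).primeCompl z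
  simp only at h ⊢
  rw [mem_map_SS, Ideal.mem_map_C_iff]
  intro k
  rw [Submodule.mem_colon]
  intro p hp
  have h1 := h p hp
  rw [IsScalarTower.algebraMap_apply R R[X] (SS R), IsLocalization.mul_mk'_eq_mk'_of_mul,
    mem_map_SS, Ideal.mem_map_C_iff] at h1
  have := h1 k
  rw [Polynomial.algebraMap_eq, coeff_C_mul] at this
  rwa [smul_eq_mul, mul_comm]

lemma exists_gen [IsNoetherianRing R] [IsDomain R] (hm : maximalIdeal R ≠ ⊥) :
    ∃ x ∈ maximalIdeal (SS R), ∃ n0 : ℕ, ∀ j, n0 ≤ j → ∀ z : SS R,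
      x * z ∈ maximalIdeal (SS R) ^ (j + 1) ↔ z ∈ maximalIdeal (SS R) ^ j := by
  obtain ⟨n0, hn0⟩ := ratliff (maximalIdeal R) hm
  obtain ⟨e, y0, hy0⟩ := Submodule.fg_iff_exists_fin_generating_family.1
    (IsNoetherian.noetherian (maximalIdeal R))
  let y : ℕ → R := fun i => if h : i < e then y0 ⟨i, h⟩ else 0
  have hy : ∀ i, y i ∈ maximalIdeal R := by
    intro i
    simp only [y]
    split_ifs with h
    · rw [← hy0]; exact Submodule.subset_span ⟨_, rfl⟩
    · exact Ideal.zero_mem _
  have hRR : ∀ j, n0 ≤ j → ∀ z : R, (∀ i < e, y i * z ∈ maximalIdeal R ^ (j + 1)) →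
      z ∈ maximalIdeal R ^ j := by
    intro j hj z hz
    apply hn0 j hj
    intro p hp
    rw [← hy0] at hp
    induction hp using Submodule.span_induction with
    | mem p hp =>
      obtain ⟨i, rfl⟩ := hp
      have := hz i i.2
      simpa [y] using this
    | zero => simp
    | add p q _ _ h1 h2 => rw [add_mul]; exact Ideal.add_mem _ h1 h2
    | smul a p _ h1 => rw [smul_eq_mul, mul_assoc]; exact Ideal.mul_mem_left _ _ h1
  have hx : algebraMap R[X] (SS R) (gen y e) ∈ maximalIdeal (SS R) := by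
    rw [← map_max, map_SS]; exact Ideal.mem_map_of_mem _ (gen_mem _ y hy e)
  refine ⟨algebraMap R[X] (SS R) (gen y e), hx, n0, fun j hj z => ⟨fun h => ?_, fun h => ?_⟩⟩
  · obtain ⟨⟨g, s⟩, rfl⟩ := IsLocalization.mk'_surjective (PP R).primeCompl z
    simp only at h ⊢
    rw [← map_max, ← Ideal.map_pow] at h ⊢
    rw [IsLocalization.mul_mk'_eq_mk'_of_mul, mem_map_SS] at h
    rw [mem_map_SS]
    exact mccoy _ e y hy n0 hRR (g.natDegree + 1) j hj g
      (fun k hk => coeff_eq_zero_of_natDegree_lt (by omega)) h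
  · rw [pow_succ']; exact Ideal.mul_mem_mul hx h

end ext

theorem mu_stable [IsLocalRing R] [IsNoetherianRing R] [IsDomain R]
    (hm : maximalIdeal R ≠ ⊥) (hfin : ∀ J : Ideal R, J ≠ ⊥ → ell J ≠ ⊤) (e N : ℕ)
    (hH : ∀ n, N ≤ n → ell (maximalIdeal R ^ (n + 1)) = ell (maximalIdeal R ^ n) + e)
    (hmin : ell (maximalIdeal R ^ 2) = ell (maximalIdeal R) + e)
    (A : Ideal R)
    (hB : ∀ a c : R, c ≠ 0 → (∀ y ∈ maximalIdeal R, a * y ∈ Ideal.span {c} * maximalIdeal R) →
      ∀ z ∈ A, a * z ∈ Ideal.span {c} * A) :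
    ell (maximalIdeal R * A) = ell A + e := by
  obtain ⟨x, hx, n0, hn0⟩ := exists_gen hm
  set m' := maximalIdeal (SS R) with hm'
  have hpow : ∀ n, ell (m' ^ n) = ell (maximalIdeal R ^ n) := by
    intro n; rw [hm', ← map_max, ← Ideal.map_pow, ell_map]
  have hfin' : ∀ n, ell (m' ^ n) ≠ ⊤ := by
    intro n; rw [hpow]; exact hfin _ (pow_ne_zero n hm)
  have h1 : ∀ j, max n0 N ≤ j → ell (Ideal.span {x} ⊔ m' ^ (j + 1)) = e := by
    intro j hj
    have h2 := ell_colon x _ _ (hn0 j (le_trans (le_max_left _ _) hj))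
    rw [hpow (j + 1), hH j (le_trans (le_max_right _ _) hj), ← hpow j] at h2
    exact ((ENat.add_right_injective_of_ne_top (hfin' j)) h2).symm
  set j := max n0 N with hj
  have h3 : Ideal.span {x} ⊔ m' ^ (j + 1 + 1) = Ideal.span {x} ⊔ m' ^ (j + 1) := by
    apply eq_of_ell_le (sup_le_sup_left (Ideal.pow_le_pow_right (by omega)) _)
    · rw [h1 (j + 1) (by omega)]; exact ENat.natCast_ne_top e
    · rw [h1 (j + 1) (by omega), h1 j le_rfl]
  have h4 : m' ^ (j + 1) ≤ Ideal.span {x} := by
    apply Submodule.le_of_le_smul_of_le_jacobson_bot (I := m') (IsNoetherian.noetherian _)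
      (IsLocalRing.maximalIdeal_le_jacobson _)
    rw [smul_eq_mul, ← pow_succ', h3]; exact le_sup_right
  have hox : ell (Ideal.span {x}) = e := by
    rw [← h1 j le_rfl, sup_eq_left.2 h4]
  obtain ⟨y, hym, hy0⟩ := Submodule.exists_mem_ne_zero_of_ne_bot hm
  have hinj : Function.Injective (algebraMap R (SS R)) := by
    rw [IsScalarTower.algebraMap_eq R R[X] (SS R)]
    refine (IsLocalization.injective (SS R) (PP R).primeCompl_le_nonZeroDivisors).comp ?_
    exact C_injective
  obtain ⟨w, hw⟩ : ∃ w, w * x = algebraMap R (SS R) (y ^ (j + 1)) := by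
    apply Ideal.mem_span_singleton'.1
    apply h4
    rw [hm', ← map_max, ← Ideal.map_pow]
    exact Ideal.mem_map_of_mem _ (Ideal.pow_mem_pow hym _)
  have hc0 : algebraMap R (SS R) (y ^ (j + 1)) ≠ 0 := by
    rw [Ne, ← map_zero (algebraMap R (SS R)), hinj.eq_iff]; exact pow_ne_zero _ hy0
  have hx0 : x ≠ 0 := by rintro rfl; apply hc0; rw [← hw, mul_zero]
  have hw0 : w ≠ 0 := by rintro rfl; apply hc0; rw [← hw, zero_mul]
  have h5 : Ideal.span {x} * m' = m' ^ 2 := by
    have e1 : ell (Ideal.span {x} * m') = ell (m' ^ 2) := by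
      rw [ell_mul x hx0, hox, hpow, hmin, ← pow_one m', hpow, pow_one]
    apply eq_of_ell_le
    · rw [pow_two]; exact Ideal.mul_mono_left ((Ideal.span_singleton_le_iff_mem _).2 hx)
    · rw [e1]; exact hfin' 2
    · rw [e1]
  set A' := A.map (algebraMap R (SS R)) with hA'
  have h6 : m' * A' = Ideal.span {x} * A' := by
    apply le_antisymm _ (Ideal.mul_mono_left ((Ideal.span_singleton_le_iff_mem _).2 hx))
    rw [Ideal.mul_le]
    intro r hr s hs
    set c := y ^ (j + 1) with hc
    have h7 : w * r ∈ ((Ideal.span {c} * maximalIdeal R).colon (maximalIdeal R : Set R)).map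
        (algebraMap R (SS R)) := by
      apply colon_SS
      intro p hp
      have hp' : algebraMap R (SS R) p ∈ m' := by
        rw [hm', ← map_max]; exact Ideal.mem_map_of_mem _ hp
      have h8 : r * algebraMap R (SS R) p ∈ Ideal.span {x} * m' := by
        rw [h5, pow_two]; exact Ideal.mul_mem_mul hr hp'
      obtain ⟨u, hu, hu2⟩ := Ideal.mem_span_singleton_mul.1 h8
      rw [Ideal.map_mul, map_max, Ideal.map_span, Set.image_singleton, ← hw]
      have : algebraMap R (SS R) p * (w * r) = (w * x) * u := by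
        rw [mul_assoc w x u, hu2]; ring
      rw [this]
      exact Ideal.mul_mem_mul (Ideal.mem_span_singleton_self _) hu
    have h9 : ((Ideal.span {c} * maximalIdeal R).colon (maximalIdeal R : Set R)) * A ≤
        Ideal.span {c} * A := by
      rw [Ideal.mul_le]
      intro a ha z hz
      rw [Submodule.mem_colon] at ha
      exact hB a c (pow_ne_zero _ hy0) (fun p hp => ha p hp) z hz
    have h10 : (w * r) * s ∈ (Ideal.span {c} * A).map (algebraMap R (SS R)) := by
      apply Ideal.map_mono h9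
      rw [Ideal.map_mul]
      exact Ideal.mul_mem_mul h7 hs
    rw [Ideal.map_mul, Ideal.map_span, Set.image_singleton, ← hw] at h10
    obtain ⟨u, hu, hu2⟩ := Ideal.mem_span_singleton_mul.1 h10
    rw [mul_assoc, mul_assoc] at hu2
    rw [← mul_left_cancel₀ hw0 hu2]
    exact Ideal.mul_mem_mul (Ideal.mem_span_singleton_self _) hu
  rw [← ell_map (maximalIdeal R * A), Ideal.map_mul, map_max, ← hm', ← hA', h6, ell_mul x hx0,
    hox, hA', ell_map]

end Pool.Agent.H.MP_9a1833_al
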