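import Mathlib
import Pool.Agent.H.MP_9a1833_al.Gen

open IsLocalRing TensorProduct

namespace Pool.Agent.H.MP_9a1833_al

variable {R : Type*} [CommRing R]

lemma ell_rel {A A' : Ideal R} (h : A ≤ A') :
    ell A = Module.length R (A' ⧸ Submodule.comap A'.subtype A) + ell A' := by
  let f : (A' ⧸ Submodule.comap A'.subtype A) →ₗ[R] (R ⧸ A) :=
    Submodule.mapQ _ A A'.subtype le_rfl
  let g : (R ⧸ A) →ₗ[R] (R ⧸ A') := Submodule.factor h
  refine Module.length_eq_add_of_exact f g ?_ ?_ ?_
  · rw [injective_iff_map_eq_zero]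
    intro a ha
    obtain ⟨z, rfl⟩ := Submodule.Quotient.mk_surjective _ a
    have : (z : R) ∈ A := (Submodule.Quotient.mk_eq_zero A).1 ha
    exact (Submodule.Quotient.mk_eq_zero _).2 this
  · exact Submodule.factor_surjective _
  · intro a
    obtain ⟨z, rfl⟩ := Submodule.Quotient.mk_surjective A a
    constructor
    · intro ha
      have : z ∈ A' := (Submodule.Quotient.mk_eq_zero _).1 ha
      exact ⟨Submodule.Quotient.mk ⟨z, this⟩, rfl⟩
    · rintro ⟨b, hb⟩
      obtain ⟨w, rfl⟩ := Submodule.Quotient.mk_surjective _ b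
      rw [← hb]
      change Submodule.Quotient.mk (w : R) = 0
      rw [Submodule.Quotient.mk_eq_zero]
      exact w.2

lemma ell_covBy {A A' : Ideal R} (h : A ⋖ A') : ell A = ell A' + 1 := by
  have := (covBy_iff_quot_is_simple h.le).1 h
  rw [ell_rel h.le, Module.length_eq_one, add_comm]

lemma ell_lt {J J' : Ideal R} (h : J < J') (hf : ell J ≠ ⊤) : ell J' + 1 ≤ ell J := by
  have h1 : ell J' < ell J := by
    by_contra hc
    exact h.ne (eq_of_ell_le h.le hf (not_lt.1 hc))
  exact Order.add_one_le_of_lt h1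

section mu
variable [IsLocalRing R]

/-- minimal number of generators -/
noncomputable def mu (R : Type*) [CommRing R] [IsLocalRing R] (M : Type*) [AddCommGroup M]
    [Module R M] : ℕ :=
  Module.finrank (ResidueField R) (ResidueField R ⊗[R] M)

lemma mu_congr {M N : Type*} [AddCommGroup M] [Module R M] [AddCommGroup N] [Module R N]
    (f : M ≃ₗ[R] N) : mu R M = mu R N :=
  (AlgebraTensorModule.congr (LinearEquiv.refl (ResidueField R) (ResidueField R)) f).finrank_eq

lemma mu_tensor (M N : Type*) [AddCommGroup M] [Module R M] [AddCommGroup N] [Module R N] :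
    mu R (M ⊗[R] N) = mu R M * mu R N := by
  unfold mu
  rw [(AlgebraTensorModule.distribBaseChange R (ResidueField R) M N).finrank_eq,
    Module.finrank_tensorProduct]

lemma length_quot (M : Type*) [AddCommGroup M] [Module R M] [Module.Finite R M] :
    Module.length R (M ⧸ (maximalIdeal R • ⊤ : Submodule R M)) = mu R M := by
  rw [← (TensorProduct.quotTensorEquivQuotSMul M (maximalIdeal R)).length_eq]
  change Module.length R (ResidueField R ⊗[R] M) = _
  rw [Module.length_eq_of_surjective (R := ResidueField R) residue_surjective,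
    Module.length_eq_finrank]
  rfl

lemma ell_mu [IsNoetherianRing R] (A : Ideal R) :
    ell (maximalIdeal R * A) = ell A + mu R A := by
  rw [ell_rel (Ideal.mul_le_right : maximalIdeal R * A ≤ A), add_comm, ← length_quot]
  have : Submodule.comap A.subtype (maximalIdeal R * A) = (maximalIdeal R • ⊤ : Submodule R A) := by
    apply Submodule.map_injective_of_injective A.injective_subtype
    rw [Submodule.map_smul'', Submodule.map_top, Submodule.range_subtype, smul_eq_mul,
      Submodule.map_comap_subtype, inf_eq_right.2 Ideal.mul_le_right]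
  rw [this]

lemma ell_sq [IsNoetherianRing R] : ell (maximalIdeal R ^ 2) =
    ell (maximalIdeal R) + Module.finrank (ResidueField R) (CotangentSpace R) := by
  rw [pow_two, ell_mu, ← length_quot, ← Module.length_eq_finrank,
    ← Module.length_eq_of_surjective (R := ResidueField R) (S := R) residue_surjective]
  rfl

lemma mul_lt_self [IsNoetherianRing R] {A : Ideal R} (hA : A ≠ ⊥) : maximalIdeal R * A < A := by
  refine lt_of_le_of_ne Ideal.mul_le_right fun h => hA ?_
  rw [eq_bot_iff]
  apply Submodule.le_of_le_smul_of_le_jacobson_bot (I := maximalIdeal R)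
    (IsNoetherian.noetherian _) (IsLocalRing.maximalIdeal_le_jacobson _)
  rw [smul_eq_mul, h]; exact le_sup_right

lemma principal_of_mu [IsNoetherianRing R] [IsDomain R] (hm : maximalIdeal R ≠ ⊥)
    (hfin : ∀ J : Ideal R, J ≠ ⊥ → ell J ≠ ⊤) {A : Ideal R} (hA : A ≠ ⊥) (h : mu R A ≤ 1) :
    ∃ z : R, z ≠ 0 ∧ A = Ideal.span {z} := by
  obtain ⟨z, hzA, hz⟩ := SetLike.exists_of_lt (mul_lt_self hA)
  have h1 : maximalIdeal R * A < Ideal.span {z} ⊔ maximalIdeal R * A := by
    refine lt_of_le_of_ne le_sup_right fun h => hz ?_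
    rw [h]; exact Submodule.mem_sup_left (Ideal.mem_span_singleton_self z)
  have h2 := ell_lt h1 (hfin _ (mul_ne_zero hm hA))
  rw [ell_mu] at h2
  have h3 : Ideal.span {z} ⊔ maximalIdeal R * A ≤ A :=
    sup_le ((Ideal.span_singleton_le_iff_mem _).2 hzA) Ideal.mul_le_right
  have h4 : ell (Ideal.span {z} ⊔ maximalIdeal R * A) ≤ ell A := by
    have h5 : ell (Ideal.span {z} ⊔ maximalIdeal R * A) + 1 ≤ ell A + 1 :=
      le_trans h2 (add_le_add le_rfl (by exact_mod_cast h))
    exact (ENat.add_le_add_iff_right ENat.one_ne_top).1 h5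
  have h6 := eq_of_ell_le h3 (ne_top_of_le_ne_top (hfin A hA) h4) h4
  refine ⟨z, ?_, le_antisymm ?_ ((Ideal.span_singleton_le_iff_mem _).2 hzA)⟩
  · rintro rfl; exact hz (Ideal.zero_mem _)
  · apply Submodule.le_of_le_smul_of_le_jacobson_bot (I := maximalIdeal R)
      (IsNoetherian.noetherian _) (IsLocalRing.maximalIdeal_le_jacobson _)
    rw [smul_eq_mul, h6]

end mu

lemma dual_ineq [IsNoetherianRing R] (D : Ideal R → Ideal R) (A : Ideal R) (hA : ell A ≠ ⊤)
    (hD : ∀ U V, A ≤ U → U < V → ell (D U) + 1 ≤ ell (D V)) :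
    ∀ d : ℕ, ∀ V, A ≤ V → ell A = ell V + d → ell (D A) + d ≤ ell (D V) := by
  intro d
  induction d with
  | zero =>
    intro V hV h
    rw [← eq_of_ell_le hV hA (by simpa using h.le)]; simp
  | succ d ih =>
    intro V hV h
    have hlt : A < V := by
      refine lt_of_le_of_ne hV ?_
      rintro rfl
      have h2 : ell A + 0 = ell A + ((d + 1 : ℕ) : ℕ∞) := by rw [add_zero]; exact h
      have := ENat.add_right_injective_of_ne_top hA h2
      exact absurd this.symm (by exact_mod_cast Nat.succ_ne_zero d)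
    obtain ⟨U, hAU, hUV⟩ := exists_le_covBy_of_lt hlt
    have h1 := ih U hAU (by rw [h, ell_covBy hUV]; push_cast; ring)
    calc ell (D A) + ((d + 1 : ℕ) : ℕ∞) = ell (D A) + d + 1 := by push_cast; ring
      _ ≤ ell (D U) + 1 := add_le_add h1 le_rfl
      _ ≤ _ := hD U V hAU hUV.lt

lemma tensor_equiv [IsDomain R] (I J : Ideal R) (hI : I ≠ ⊥)
    (h : ∀ (r : R) (t : I ⊗[R] J), r ≠ 0 → r • t = 0 → t = 0) :
    Nonempty ((I ⊗[R] J) ≃ₗ[R] (I * J : Ideal R)) := by
  obtain ⟨c, hc, hc0⟩ := Submodule.exists_mem_ne_zero_of_ne_bot hI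
  have hinj : Function.Injective (Submodule.mulMap I J) := by
    rw [injective_iff_map_eq_zero]
    intro t ht
    let φ : I ⊗[R] J →ₗ[R] J := TensorProduct.lift
      ((LinearMap.lsmul R J).comp I.subtype)
    have h1 : ∀ t : I ⊗[R] J, c • t = (⟨c, hc⟩ : I) ⊗ₜ[R] φ t ∧
        (φ t : R) = Submodule.mulMap I J t := by
      intro t
      induction t using TensorProduct.induction_on with
      | zero => simp
      | tmul a b =>
        refine ⟨?_, by simp [φ]⟩
        simp only [φ, lift.tmul, LinearMap.comp_apply, LinearMap.lsmul_apply,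
          Submodule.subtype_apply]
        rw [← TensorProduct.smul_tmul, TensorProduct.smul_tmul']
        congr 1
        ext; simp [mul_comm]
      | add a b ha hb =>
        refine ⟨?_, by simp [ha.2, hb.2]⟩
        rw [smul_add, ha.1, hb.1, map_add, tmul_add]
    apply h c t hc0
    have h2 : φ t = 0 := by ext; rw [(h1 t).2, ht]; rfl
    rw [(h1 t).1, h2, tmul_zero]
  exact ⟨(LinearEquiv.ofInjective _ hinj).trans
    (LinearEquiv.ofEq _ _ (Submodule.mulMap_range I J))⟩

end Pool.Agent.H.MP_9a1833_al
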