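import Mathlib
import Pool.Agent.H.MP_9a1833_al.Mu

open IsLocalRing TensorProduct

namespace Pool.Agent.H.MP_9a1833_al

variable {R : Type*} [CommRing R]

/-- modules over the endomorphism ring of the maximal ideal -/
def Stab [IsLocalRing R] (A : Ideal R) : Prop :=
  ∀ a c : R, c ≠ 0 → (∀ y ∈ maximalIdeal R, a * y ∈ Ideal.span {c} * maximalIdeal R) →
    ∀ z ∈ A, a * z ∈ Ideal.span {c} * A

/-- the stable closure -/
def clo [IsLocalRing R] (A : Ideal R) : Ideal R :=
  (maximalIdeal R * A).colon (maximalIdeal R : Set R) ⊓ maximalIdeal R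

lemma span_equiv [IsDomain R] (z : R) (hz : z ≠ 0) (A : Ideal R) :
    Nonempty ((Ideal.span {z} * A : Ideal R) ≃ₗ[R] A) := by
  have hinj : Function.Injective ((LinearMap.mulLeft R z).comp A.subtype) := by
    intro a b h
    ext
    exact mul_left_cancel₀ hz h
  refine ⟨((LinearEquiv.ofInjective _ hinj).trans (LinearEquiv.ofEq _ _ ?_)).symm⟩
  ext w
  rw [Ideal.mem_span_singleton_mul]
  constructor
  · rintro ⟨a, rfl⟩; exact ⟨a, a.2, rfl⟩
  · rintro ⟨a, ha, rfl⟩; exact ⟨⟨a, ha⟩, rfl⟩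

section
variable [IsLocalRing R]

lemma le_clo {A : Ideal R} (h : A ≤ maximalIdeal R) : A ≤ clo A := by
  refine le_inf ?_ h
  intro z hz
  rw [Submodule.mem_colon]
  intro p hp
  rw [smul_eq_mul, mul_comm z]; exact Ideal.mul_mem_mul hp hz

lemma mul_clo {A : Ideal R} (h : A ≤ maximalIdeal R) :
    maximalIdeal R * clo A = maximalIdeal R * A := by
  refine le_antisymm ?_ (Ideal.mul_mono_right (le_clo h))
  rw [Ideal.mul_le]
  intro r hr s hs
  have := (Submodule.mem_colon.1 hs.1) r hr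
  rwa [smul_eq_mul, mul_comm s] at this

lemma stab_clo [IsDomain R] (A : Ideal R) : Stab (clo A) := by
  intro a c hc ha z hz
  obtain ⟨z', hz', h⟩ := Ideal.mem_span_singleton_mul.1 (ha z hz.2)
  rw [Ideal.mem_span_singleton_mul]
  refine ⟨z', ⟨?_, hz'⟩, h⟩
  change z' ∈ (maximalIdeal R * A).colon (maximalIdeal R : Set R)
  rw [Submodule.mem_colon]
  intro p hp
  obtain ⟨p', hp', h2⟩ := Ideal.mem_span_singleton_mul.1 (ha p hp)
  have h3 : z' * p = z * p' := by
    apply mul_left_cancel₀ hc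
    calc c * (z' * p) = (c * z') * p := by ring
      _ = z * (a * p) := by rw [h]; ring
      _ = c * (z * p') := by rw [← h2]; ring
  rw [smul_eq_mul, h3]
  exact (Submodule.mem_colon.1 hz.1) p' hp'

theorem main_ideal [IsNoetherianRing R] [IsDomain R] (hm : maximalIdeal R ≠ ⊥)
    (hfin : ∀ J : Ideal R, J ≠ ⊥ → ell J ≠ ⊤) (e : ℕ)
    (hF : ∀ A : Ideal R, Stab A → ell (maximalIdeal R * A) = ell A + e)
    (K : Ideal R) (hK : K ≠ ⊥)
    (hNS : ∀ A A' : Ideal R, A < A' → ∀ c ∈ A, c ≠ 0 →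
      ∃ r : R, (∀ z ∈ A, r * z ∈ Ideal.span {c} * K) ∧ ¬ ∀ z ∈ A', r * z ∈ Ideal.span {c} * K)
    (I : Ideal R) (c : R) (hc : c ∈ I) (hc0 : c ≠ 0)
    (htf : ∀ (r : R) (t : I ⊗[R] ((Ideal.span {c} * K).colon (I : Set R) : Ideal R)),
      r ≠ 0 → r • t = 0 → t = 0) :
    Nonempty (I ≃ₗ[R] R) ∨ Nonempty (I ≃ₗ[R] K) := by
  have hI : I ≠ ⊥ := fun h => hc0 (by rw [h] at hc; exact hc)
  by_cases htop : I = ⊤
  · left; subst htop; exact ⟨Submodule.topEquiv⟩
  have hIm : I ≤ maximalIdeal R := le_maximalIdeal htop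
  set K' : Ideal R := Ideal.span {c} * K with hK'
  let D : Ideal R → Ideal R := fun A => K'.colon (A : Set R)
  have hDmem : ∀ A r, r ∈ D A ↔ ∀ z ∈ A, r * z ∈ K' := fun A r => Submodule.mem_colon
  have hK'0 : K' ≠ ⊥ := mul_ne_zero (by simpa using hc0) hK
  have hDK : ∀ A, K' ≤ D A := fun A r hr => (hDmem A r).2 fun z _ => Ideal.mul_mem_right _ _ hr
  have hD0 : ∀ A, D A ≠ ⊥ := fun A h => hK'0 (eq_bot_iff.2 (h ▸ hDK A))
  have hDanti : ∀ U V, U ≤ V → D V ≤ D U := fun U V h r hr =>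
    (hDmem U r).2 fun z hz => (hDmem V r).1 hr z (h hz)
  have hDlt : ∀ U V, I ≤ U → U < V → D V < D U := by
    intro U V hU hUV
    refine lt_of_le_of_ne (hDanti U V hUV.le) fun h => ?_
    obtain ⟨r, h1, h2⟩ := hNS U V hUV c (hU hc) hc0
    exact h2 ((hDmem V r).1 (h ▸ (hDmem U r).2 h1))
  set J : Ideal R := D I with hJ
  have hJ0 : J ≠ ⊥ := hD0 I
  have hDD : D J = I := by
    have h1 : I ≤ D J := fun z hz => (hDmem J z).2 fun j hj => by
      rw [mul_comm]; exact (hDmem I j).1 hj z hz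
    by_contra hne
    have h2 := hDlt I (D J) le_rfl (lt_of_le_of_ne h1 (Ne.symm hne))
    refine absurd ?_ (not_le_of_gt h2)
    intro j hj
    exact (hDmem _ j).2 fun z hz => by rw [mul_comm]; exact (hDmem J z).1 hz j hj
  -- numerical invariants
  have hclo : ∀ A : Ideal R, A ≠ ⊥ → A ≤ maximalIdeal R →
      ∃ d : ℕ, ell A = ell (clo A) + d ∧ mu R A + d = e := by
    intro A hA hAm
    have h1 := hF _ (stab_clo A)
    rw [mul_clo hAm, ell_mu] at h1
    have h2 : ell (clo A) ≤ ell A := ell_anti (le_clo hAm)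
    obtain ⟨n, hn⟩ := ENat.ne_top_iff_exists.1 (hfin A hA)
    obtain ⟨n', hn'⟩ := ENat.ne_top_iff_exists.1 (ne_top_of_le_ne_top (hfin A hA) h2)
    rw [← hn, ← hn'] at h1 h2 ⊢
    have h3 : n + mu R A = n' + e := by exact_mod_cast h1
    have h4 : n' ≤ n := by exact_mod_cast h2
    exact ⟨n - n', by exact_mod_cast (by omega), by omega⟩
  obtain ⟨d, hd1, hd2⟩ := hclo I hI hIm
  have hb : d ≤ mu R J := by
    have h1 := dual_ineq D I (hfin I hI)
      (fun U V hU hUV => ell_lt (hDlt U V hU hUV) (hfin _ (hD0 V))) d (clo I) (le_clo hIm) hd1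
    have h2 : maximalIdeal R * J ≤ D (clo I) := by
      rw [Ideal.mul_le]
      intro p hp j hj
      rw [hDmem]
      intro z hz
      have h3 : p * z ∈ maximalIdeal R * I := by
        rw [← mul_clo hIm]; exact Ideal.mul_mem_mul hp hz
      have : p * j * z = j * (p * z) := by ring
      rw [this]
      exact (hDmem I j).1 hj _ (Ideal.mul_le_right h3)
    have h4 := le_trans h1 (ell_anti h2)
    rw [ell_mu] at h4
    exact_mod_cast (ENat.add_le_add_iff_left (hfin J hJ0)).1 h4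
  have hL : mu R (I * J : Ideal R) = mu R I * mu R J := by
    obtain ⟨f⟩ := tensor_equiv I J hI htf
    rw [← mu_congr f, mu_tensor]
  have hL0 : I * J ≠ ⊥ := mul_ne_zero hI hJ0
  have hLm : I * J ≤ maximalIdeal R := le_trans Ideal.mul_le_left hIm
  obtain ⟨d', hd1', hd2'⟩ := hclo (I * J) hL0 hLm
  by_cases ha : mu R I ≤ 1
  · left
    obtain ⟨z, hz0, hz⟩ := principal_of_mu hm hfin hI ha
    obtain ⟨f⟩ := span_equiv z hz0 (⊤ : Ideal R)
    rw [Ideal.mul_top, ← hz] at f
    exact ⟨f.trans Submodule.topEquiv⟩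
  by_cases hb1 : mu R J ≤ 1
  · right
    obtain ⟨j, hj0, hj⟩ := principal_of_mu hm hfin hJ0 hb1
    have hjJ : j ∈ J := by rw [hj]; exact Ideal.mem_span_singleton_self j
    have h1 : Ideal.span {j} * I ≤ K' := by
      rw [Ideal.span_singleton_mul_le_iff]; exact (hDmem I j).1 hjJ
    have h2 : Ideal.span {j} * I = K' := by
      by_contra hne
      obtain ⟨r, h3, h4⟩ := hNS _ _ (lt_of_le_of_ne h1 hne) (j * c)
        (Ideal.mul_mem_mul (Ideal.mem_span_singleton_self j) hc) (mul_ne_zero hj0 hc0)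
      have h5 : r ∈ J := by
        rw [hDmem]
        intro z hz
        obtain ⟨k, hk, hk2⟩ := Ideal.mem_span_singleton_mul.1
          (h3 (j * z) (Ideal.mul_mem_mul (Ideal.mem_span_singleton_self j) hz))
        have : r * z = c * k := by
          apply mul_left_cancel₀ hj0
          calc j * (r * z) = r * (j * z) := by ring
            _ = j * (c * k) := by rw [← hk2]; ring
        rw [this]; exact Ideal.mul_mem_mul (Ideal.mem_span_singleton_self c) hk
      rw [hj] at h5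
      obtain ⟨s, rfl⟩ := Ideal.mem_span_singleton'.1 h5
      apply h4
      intro z hz
      obtain ⟨k, hk, rfl⟩ := Ideal.mem_span_singleton_mul.1 hz
      have : s * j * (c * k) = (j * c) * (s * k) := by ring
      rw [this]
      exact Ideal.mul_mem_mul (Ideal.mem_span_singleton_self _) (Ideal.mul_mem_left _ _ hk)
    obtain ⟨f⟩ := span_equiv j hj0 I
    obtain ⟨g⟩ := span_equiv c hc0 K
    rw [h2] at f
    exact ⟨f.symm.trans g⟩
  exfalso
  rw [hL] at hd2'
  have ha2 : mu R I = 2 := by nlinarith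
  have hb2 : mu R J = 2 := by nlinarith
  rw [ha2, hb2] at hd2'
  have hd0 : d' = 0 := by omega
  have hst : Stab (I * J) := by
    rw [eq_of_ell_le (le_clo hLm) (hfin _ hL0) (by rw [hd1', hd0]; simp)]
    exact stab_clo _
  have hstI : Stab I := by
    intro a c' hc' ha' z hz
    obtain ⟨z', hz', h⟩ := Ideal.mem_span_singleton_mul.1 (ha' z (hIm hz))
    rw [Ideal.mem_span_singleton_mul]
    refine ⟨z', ?_, h⟩
    rw [← hDD, hDmem]
    intro j hj
    obtain ⟨l, hl, hl2⟩ := Ideal.mem_span_singleton_mul.1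
      (hst a c' hc' ha' (z * j) (Ideal.mul_mem_mul hz hj))
    have : z' * j = l := by
      apply mul_left_cancel₀ hc'
      rw [hl2, ← mul_assoc, h, mul_assoc]
    rw [this]
    have h7 : I * J ≤ K' := by
      rw [Ideal.mul_le]
      intro u hu v hv
      rw [mul_comm]; exact (hDmem I v).1 hv u hu
    exact h7 hl
  have h8 := hF I hstI
  rw [ell_mu] at h8
  have h9 : mu R I = e := by
    exact_mod_cast ENat.add_right_injective_of_ne_top (hfin I hI) h8
  omega

end

end Pool.Agent.H.MP_9a1833_al
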