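import Mathlib
import Pool.Agent.H.MP_9a1833_al.Main

open IsLocalRing TensorProduct CategoryTheory CategoryTheory.Abelian

universe u

namespace Pool.Agent.H.MP_9a1833_al

variable {R : Type u} [CommRing R]

lemma length_le_of_exact {M N P : Type*} [AddCommGroup M] [Module R M] [AddCommGroup N]
    [Module R N] [AddCommGroup P] [Module R P] (f : M →ₗ[R] N) (g : N →ₗ[R] P)
    (h : Function.Exact f g) : Module.length R N ≤ Module.length R M + Module.length R P := by
  rw [Module.length_eq_add_of_exact (LinearMap.ker g).subtype g.rangeRestrict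
    (Submodule.injective_subtype _) g.surjective_rangeRestrict
    (by rw [LinearMap.exact_iff]; simp)]
  refine add_le_add ?_ (Module.length_le_of_injective _ (Submodule.injective_subtype _))
  rw [LinearMap.exact_iff.1 h]
  exact Module.length_le_of_surjective _ f.surjective_rangeRestrict

lemma length_quot_map {M N : Type*} [AddCommGroup M] [Module R M] [AddCommGroup N]
    [Module R N] (φ : M →ₗ[R] N) (V : Submodule R N) :
    Module.length R (N ⧸ V) =
      Module.length R (M ⧸ V.comap φ) + Module.length R (N ⧸ (LinearMap.range φ ⊔ V)) := by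
  let f : (M ⧸ V.comap φ) →ₗ[R] (N ⧸ V) := Submodule.mapQ _ V φ le_rfl
  let g : (N ⧸ V) →ₗ[R] (N ⧸ (LinearMap.range φ ⊔ V)) := Submodule.factor le_sup_right
  refine Module.length_eq_add_of_exact f g ?_ ?_ ?_
  · rw [injective_iff_map_eq_zero]
    intro a ha
    obtain ⟨z, rfl⟩ := Submodule.Quotient.mk_surjective _ a
    have : φ z ∈ V := (Submodule.Quotient.mk_eq_zero V).1 ha
    exact (Submodule.Quotient.mk_eq_zero _).2 this
  · exact Submodule.factor_surjective _
  · intro a
    obtain ⟨z, rfl⟩ := Submodule.Quotient.mk_surjective V a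
    constructor
    · intro ha
      have : z ∈ LinearMap.range φ ⊔ V := (Submodule.Quotient.mk_eq_zero _).1 ha
      obtain ⟨u, ⟨w, rfl⟩, v, hv, rfl⟩ := Submodule.mem_sup.1 this
      refine ⟨Submodule.Quotient.mk w, ?_⟩
      change Submodule.Quotient.mk (φ w) = _
      rw [Submodule.Quotient.eq]
      have : φ w - (φ w + v) = -v := by abel
      rw [this]; exact V.neg_mem hv
    · rintro ⟨b, hb⟩
      obtain ⟨w, rfl⟩ := Submodule.Quotient.mk_surjective _ b
      rw [← hb]
      change Submodule.Quotient.mk (φ w) = 0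
      rw [Submodule.Quotient.mk_eq_zero]
      exact Submodule.mem_sup_left ⟨w, rfl⟩

variable (W : ModuleCat.{u} R)

/-- Ext groups -/
abbrev EE (M : Type u) [AddCommGroup M] [Module R M] (n : ℕ) : Type u :=
  Ext (ModuleCat.of R M) W n

variable {M N P : Type u} [AddCommGroup M] [Module R M] [AddCommGroup N] [Module R N]
  [AddCommGroup P] [Module R P]

/-- pullback -/
noncomputable def pb (f : M →ₗ[R] N) (n : ℕ) : EE W N n →ₗ[R] EE W M n :=
  (Ext.mk₀ (ModuleCat.ofHom f)).precompOfLinear R W (zero_add n)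

lemma pb_apply (f : M →ₗ[R] N) (n : ℕ) (x : EE W N n) :
    pb W f n x = (Ext.mk₀ (ModuleCat.ofHom f)).comp x (zero_add n) := rfl

lemma pb_comp (f : M →ₗ[R] N) (g : N →ₗ[R] P) (n : ℕ) (x : EE W P n) :
    pb W (g.comp f) n x = pb W f n (pb W g n x) := by
  simp only [pb_apply, ModuleCat.ofHom_comp, Ext.mk₀_comp_mk₀_assoc]

lemma pb_smul (c : R) (n : ℕ) (x : EE W M n) :
    pb W (c • (LinearMap.id : M →ₗ[R] M)) n x = c • x := by
  have : ModuleCat.ofHom (c • (LinearMap.id : M →ₗ[R] M)) = c • 𝟙 (ModuleCat.of R M) := rfl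
  rw [pb_apply, this, Ext.mk₀_smul, Ext.smul_comp, Ext.mk₀_id_comp]

lemma pb_id (n : ℕ) (x : EE W M n) : pb W (LinearMap.id : M →ₗ[R] M) n x = x := by
  have := pb_smul W (1 : R) n x
  rwa [one_smul, one_smul] at this

lemma length_EE_congr (e : M ≃ₗ[R] N) (n : ℕ) :
    Module.length R (EE W M n) ≤ Module.length R (EE W N n) := by
  apply Module.length_le_of_surjective (pb W e.toLinearMap n)
  intro x
  refine ⟨pb W e.symm.toLinearMap n x, ?_⟩
  rw [← pb_comp, LinearEquiv.symm_comp, pb_id]

lemma les (f : M →ₗ[R] N) (g : N →ₗ[R] P) (h : Function.Exact f g) (hf : Function.Injective f)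
    (hg : Function.Surjective g) (n : ℕ) :
    ∃ δ : EE W M n →ₗ[R] EE W P (n + 1), Function.Exact (pb W f n) δ ∧
      Function.Exact δ (pb W g (n + 1)) ∧ Function.Exact (pb W g n) (pb W f n) := by
  let S := ModuleCat.shortComplexOfCompEqZero f g h.linearMap_comp_eq_zero
  have hS : S.ShortExact := ModuleCat.shortComplex_shortExact S h hf hg
  refine ⟨hS.extClass.precompOfLinear R W (add_comm 1 n), ?_, ?_, ?_⟩
  · intro x
    constructor
    · intro hx
      exact Ext.contravariant_sequence_exact₁ hS W x (add_comm 1 n) hx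
    · rintro ⟨y, rfl⟩
      exact hS.extClass_comp_assoc y (h := add_comm 1 n)
  · intro x
    constructor
    · intro hx
      exact Ext.contravariant_sequence_exact₃ hS W x hx (add_comm 1 n)
    · rintro ⟨y, rfl⟩
      exact hS.comp_extClass_assoc y (add_comm 1 n)
  · intro x
    constructor
    · intro hx
      exact Ext.contravariant_sequence_exact₂ hS W x hx
    · rintro ⟨y, rfl⟩
      rw [← pb_comp, h.linearMap_comp_eq_zero, pb_apply]
      have : ModuleCat.ofHom (0 : M →ₗ[R] P) = 0 := rfl
      rw [this, Ext.mk₀_zero, Ext.zero_comp]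

variable [IsLocalRing R]

lemma simple_equiv (M : Type u) [AddCommGroup M] [Module R M] [h : IsSimpleModule R M] :
    Nonempty (M ≃ₗ[R] ResidueField R) := by
  obtain ⟨m, hm, ⟨e⟩⟩ := isSimpleModule_iff_quot_maximal.mp h
  obtain rfl := eq_maximalIdeal hm
  exact ⟨e⟩

lemma length_EE_le (n : ℕ) (M : Type u) [AddCommGroup M] [Module R M] (h : IsFiniteLength R M) :
    Module.length R (EE W M n) ≤
      Module.length R M * Module.length R (EE W (ResidueField R) n) := by
  induction h with
  | @of_subsingleton M _ _ _ =>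
    have : Subsingleton (EE W M n) := by
      apply subsingleton_of_forall_eq 0
      intro x
      have h1 : (LinearMap.id : M →ₗ[R] M) = (0 : R) • LinearMap.id := Subsingleton.elim _ _
      rw [← pb_id W n x, h1, pb_smul, zero_smul]
    simp
  | @of_simple_quotient M _ _ N _ _ ih =>
    obtain ⟨δ, -, -, h3⟩ := les W N.subtype N.mkQ (LinearMap.exact_subtype_mkQ N)
      N.injective_subtype N.mkQ_surjective n
    obtain ⟨e⟩ := simple_equiv (R := R) (M ⧸ N)
    have h4 := length_le_of_exact _ _ h3
    rw [Module.length_eq_add_of_exact N.subtype N.mkQ N.injective_subtype N.mkQ_surjective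
      (LinearMap.exact_subtype_mkQ N), Module.length_eq_one R (M ⧸ N), add_mul, one_mul, add_comm]
    exact le_trans h4 (add_le_add (length_EE_congr W e n) ih)

end Pool.Agent.H.MP_9a1833_al
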