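import Mathlib
import Pool.Agent.H.MP_9a1833_al.ExtL

open IsLocalRing TensorProduct CategoryTheory CategoryTheory.Abelian

universe u

namespace Pool.Agent.H.MP_9a1833_al

variable {R : Type u} [CommRing R] [IsLocalRing R] [IsDomain R] [IsNoetherianRing R]
  {ω : Type u} [AddCommGroup ω] [Module R ω]

omit [IsLocalRing R] [IsDomain R] [IsNoetherianRing R] in
/-- Ext zero is Hom -/
noncomputable def ext0 (ω : Type u) [AddCommGroup ω] [Module R ω]
    (M : Type u) [AddCommGroup M] [Module R M] :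
    EE (ModuleCat.of R ω) M 0 ≃ₗ[R] (M →ₗ[R] ω) :=
  Ext.linearEquiv₀.trans ModuleCat.homLinearEquiv

omit [IsLocalRing R] [IsDomain R] [IsNoetherianRing R] in
lemma ext0_symm (M : Type u) [AddCommGroup M] [Module R M] (f : M →ₗ[R] ω) :
    (ext0 ω M).symm f = Ext.mk₀ (ModuleCat.ofHom f) := rfl

omit [IsLocalRing R] [IsDomain R] [IsNoetherianRing R] in
lemma pb_ext0 {M N : Type u} [AddCommGroup M] [Module R M] [AddCommGroup N] [Module R N]
    (i : M →ₗ[R] N) (g : N →ₗ[R] ω) :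
    pb (ModuleCat.of R ω) i 0 ((ext0 ω N).symm g) = (ext0 ω M).symm (g.comp i) := by
  rw [ext0_symm, ext0_symm, pb_apply, Ext.mk₀_comp_mk₀, ModuleCat.ofHom_comp]

omit [IsDomain R] [IsNoetherianRing R] in
lemma EE_sub (n : ℕ) (h : Module.length R (EE (ModuleCat.of R ω) (ResidueField R) n) = 0)
    (M : Type u) [AddCommGroup M] [Module R M] (hM : Module.length R M ≠ ⊤) :
    Subsingleton (EE (ModuleCat.of R ω) M n) := by
  have := length_EE_le (ModuleCat.of R ω) n M (Module.length_ne_top_iff.1 hM)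
  rw [h, mul_zero, nonpos_iff_eq_zero] at this
  exact Module.length_eq_zero_iff.1 this

omit [IsDomain R] [IsNoetherianRing R] in
lemma torsionfree (hfin : ∀ J : Ideal R, J ≠ ⊥ → ell J ≠ ⊤)
    (h0 : Module.length R (EE (ModuleCat.of R ω) (ResidueField R) 0) = 0)
    (r : R) (x : ω) (hr : r ≠ 0) (hx : r • x = 0) : x = 0 := by
  have h1 := EE_sub 0 h0 (R ⧸ Ideal.span {r}) (hfin _ (by simpa using hr))
  have h2 : Subsingleton ((R ⧸ Ideal.span {r}) →ₗ[R] ω) := (ext0 ω _).symm.injective.subsingleton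
  let f : (R ⧸ Ideal.span {r}) →ₗ[R] ω := Submodule.liftQ _ (LinearMap.toSpanSingleton R ω x)
    (by
      rw [Ideal.span_le]
      rintro _ rfl
      simpa using hx)
  have h3 : f (Submodule.Quotient.mk 1) = x := one_smul R x
  rw [← h3, Subsingleton.elim f 0]; rfl

omit [IsLocalRing R] [IsNoetherianRing R] in
lemma len_quot_ideal (A : Ideal R) (hA : ell A ≠ ⊤) (c : R) (hc : c ≠ 0) :
    Module.length R (A ⧸ Submodule.comap A.subtype (Ideal.span {c} * A)) =
      ell (Ideal.span {c}) := by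
  have h1 := ell_rel (Ideal.mul_le_right : Ideal.span {c} * A ≤ A)
  rw [ell_mul c hc, add_comm (Module.length R _)] at h1
  exact (ENat.add_right_injective_of_ne_top hA h1).symm

omit [IsNoetherianRing R] in
lemma ext1_ideal (hfin : ∀ J : Ideal R, J ≠ ⊥ → ell J ≠ ⊤)
    (h2 : Module.length R (EE (ModuleCat.of R ω) (ResidueField R) 2) = 0)
    (A : Ideal R) (hA : A ≠ ⊥) (x : EE (ModuleCat.of R ω) A 1) : x = 0 := by
  obtain ⟨c, hc, hc0⟩ := Submodule.exists_mem_ne_zero_of_ne_bot hA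
  let V : Submodule R A := Submodule.comap A.subtype (Ideal.span {c} * A)
  have hex : Function.Exact (c • (LinearMap.id : A →ₗ[R] A)) V.mkQ := by
    intro z
    rw [Submodule.mkQ_apply, Submodule.Quotient.mk_eq_zero]
    change (z : R) ∈ Ideal.span {c} * A ↔ _
    rw [Ideal.mem_span_singleton_mul]
    constructor
    · rintro ⟨w, hw, h⟩; exact ⟨⟨w, hw⟩, Subtype.ext h⟩
    · rintro ⟨w, rfl⟩; exact ⟨w, w.2, rfl⟩
  have hinj : Function.Injective (c • (LinearMap.id : A →ₗ[R] A)) := by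
    intro a b h
    exact Subtype.ext (mul_left_cancel₀ hc0 (congrArg Subtype.val h))
  obtain ⟨δ, h3, -, -⟩ := les (ModuleCat.of R ω) _ _ hex hinj V.mkQ_surjective 1
  have h4 := EE_sub 2 h2 (A ⧸ V) (by
    rw [len_quot_ideal A (hfin A hA) c hc0]; exact hfin _ (by simpa using hc0))
  obtain ⟨y, rfl⟩ := (h3 x).1 (Subsingleton.elim _ _)
  have h5 : c • (LinearMap.id : A →ₗ[R] A) =
      (LinearMap.toSpanSingleton R A ⟨c, hc⟩).comp A.subtype := by
    ext z; simp [mul_comm]
  rw [h5, pb_comp]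
  have h6 : pb (ModuleCat.of R ω) (LinearMap.toSpanSingleton R A ⟨c, hc⟩) 1 y = 0 :=
    Ext.eq_zero_of_projective _
  rw [h6, map_zero]

omit [IsNoetherianRing R] in
lemma ns_cover (hfin : ∀ J : Ideal R, J ≠ ⊥ → ell J ≠ ⊤)
    (h1 : Module.length R (EE (ModuleCat.of R ω) (ResidueField R) 1) = 1)
    (h2 : Module.length R (EE (ModuleCat.of R ω) (ResidueField R) 2) = 0)
    (U A : Ideal R) (h : U ⋖ A) :
    ∃ f : U →ₗ[R] ω, ∀ g : A →ₗ[R] ω, g.comp (Submodule.inclusion h.le) ≠ f := by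
  by_contra hc
  push Not at hc
  have hA : A ≠ ⊥ := ne_bot_of_gt h.lt
  let V : Submodule R A := Submodule.comap A.subtype U
  have hex : Function.Exact (Submodule.inclusion h.le) V.mkQ := by
    rw [LinearMap.exact_iff, Submodule.ker_mkQ, Submodule.range_inclusion]
  obtain ⟨δ, h3, h4, -⟩ := les (ModuleCat.of R ω) _ _ hex (Submodule.inclusion_injective _)
    V.mkQ_surjective 0
  have hs := (covBy_iff_quot_is_simple h.le).1 h
  obtain ⟨e⟩ := simple_equiv (R := R) (A ⧸ V)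
  have h5 := length_EE_congr (ModuleCat.of R ω) e.symm 1
  have h6 : Subsingleton (EE (ModuleCat.of R ω) (A ⧸ V) 1) := by
    apply subsingleton_of_forall_eq 0
    intro x
    obtain ⟨y, rfl⟩ := (h4 x).1 (ext1_ideal hfin h2 A hA _)
    obtain ⟨f, rfl⟩ := (ext0 ω U).symm.surjective y
    obtain ⟨g, rfl⟩ := hc f
    rw [← pb_ext0]
    exact (h3 _).2 ⟨_, rfl⟩
  rw [h1, Module.length_eq_zero] at h5
  exact absurd h5 (by simp)

omit [IsNoetherianRing R] in
lemma len_omega (h1 : Module.length R (EE (ModuleCat.of R ω) (ResidueField R) 1) = 1)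
    (c : R) (hc0 : c ≠ 0) (hc : ell (Ideal.span {c}) ≠ ⊤) :
    Module.length R (ω ⧸ LinearMap.range (c • (LinearMap.id : ω →ₗ[R] ω))) ≤
      ell (Ideal.span {c}) := by
  have hex : Function.Exact (c • (LinearMap.id : R →ₗ[R] R)) (Ideal.span {c}).mkQ := by
    intro z
    rw [Submodule.mkQ_apply, Submodule.Quotient.mk_eq_zero, Ideal.mem_span_singleton']
    constructor
    · rintro ⟨w, h⟩; exact ⟨w, by simpa [mul_comm] using h⟩
    · rintro ⟨w, rfl⟩; exact ⟨w, by simp [mul_comm]⟩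
  have hinj : Function.Injective (c • (LinearMap.id : R →ₗ[R] R)) := by
    intro a b h
    exact mul_left_cancel₀ hc0 h
  obtain ⟨δ, h3, -, -⟩ := les (ModuleCat.of R ω) _ _ hex hinj (Ideal.span {c}).mkQ_surjective 0
  let ι : ω ≃ₗ[R] EE (ModuleCat.of R ω) R 0 :=
    (LinearMap.ringLmapEquivSelf R R ω).symm.trans (ext0 ω R).symm
  let θ := δ.comp ι.toLinearMap
  have hker : LinearMap.ker θ ≤ LinearMap.range (c • (LinearMap.id : ω →ₗ[R] ω)) := by
    intro w hw
    obtain ⟨y, hy⟩ := (h3 (ι w)).1 hw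
    obtain ⟨w', rfl⟩ := ι.surjective y
    rw [pb_smul, ← map_smul] at hy
    exact ⟨w', ι.injective hy⟩
  have h4 := length_EE_le (ModuleCat.of R ω) 1 (R ⧸ Ideal.span {c})
    (Module.length_ne_top_iff.1 hc)
  rw [h1, mul_one] at h4
  calc _ ≤ Module.length R (ω ⧸ LinearMap.ker θ) :=
        Module.length_le_of_surjective (Submodule.factor hker) (Submodule.factor_surjective _)
    _ = Module.length R (LinearMap.range θ) := θ.quotKerEquivRange.length_eq
    _ ≤ _ := Module.length_le_of_injective _ (Submodule.injective_subtype _)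
    _ ≤ _ := h4

omit [IsLocalRing R] [IsNoetherianRing R] in
lemma exists_denom (P N : Submodule R ω) (hN : N.FG) :
    (∀ w ∈ N, ∃ d : R, d ≠ 0 ∧ d • w ∈ P) → ∃ d : R, d ≠ 0 ∧ ∀ w ∈ N, d • w ∈ P := by
  induction N, hN using Submodule.fg_induction with
  | singleton x =>
    intro h
    obtain ⟨d, hd, hx⟩ := h x (Submodule.mem_span_singleton_self x)
    refine ⟨d, hd, fun w hw => ?_⟩
    obtain ⟨a, rfl⟩ := Submodule.mem_span_singleton.1 hw
    rw [smul_comm]; exact P.smul_mem _ hx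
  | sup N₁ N₂ _ _ h1 h2 =>
    intro h
    obtain ⟨d1, hd1, hx1⟩ := h1 fun w hw => h w (Submodule.mem_sup_left hw)
    obtain ⟨d2, hd2, hx2⟩ := h2 fun w hw => h w (Submodule.mem_sup_right hw)
    refine ⟨d1 * d2, mul_ne_zero hd1 hd2, fun w hw => ?_⟩
    obtain ⟨a, ha, b, hb, rfl⟩ := Submodule.mem_sup.1 hw
    rw [smul_add]
    refine P.add_mem ?_ ?_
    · rw [mul_comm, mul_smul]; exact P.smul_mem _ (hx1 a ha)
    · rw [mul_smul]; exact P.smul_mem _ (hx2 b hb)

theorem exists_ideal [Module.Finite R ω] (hm : maximalIdeal R ≠ ⊥)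
    (hfin : ∀ J : Ideal R, J ≠ ⊥ → ell J ≠ ⊤)
    (h0 : Module.length R (EE (ModuleCat.of R ω) (ResidueField R) 0) = 0)
    (h1 : Module.length R (EE (ModuleCat.of R ω) (ResidueField R) 1) = 1) :
    ∃ K : Ideal R, K ≠ ⊥ ∧ Nonempty (K ≃ₗ[R] ω) := by
  have htf := torsionfree hfin h0
  obtain ⟨u, hu⟩ : ∃ u : ω, u ≠ 0 := by
    by_contra hc
    push Not at hc
    have h2 : Subsingleton (EE (ModuleCat.of R ω) (ResidueField R) 1) := by
      apply subsingleton_of_forall_eq 0
      intro x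
      have h3 : 𝟙 (ModuleCat.of R ω) = 0 := by ext w; exact hc _
      rw [← Ext.comp_mk₀_id x, h3, Ext.mk₀_zero, Ext.comp_zero]
    rw [Module.length_eq_zero] at h1
    exact absurd h1 (by simp)
  let ω₁ : Submodule R ω :=
    { carrier := {w | ∃ d : R, d ≠ 0 ∧ d • w ∈ Submodule.span R {u}}
      add_mem' := by
        rintro a b ⟨d1, hd1, h1⟩ ⟨d2, hd2, h2⟩
        refine ⟨d1 * d2, mul_ne_zero hd1 hd2, ?_⟩
        rw [smul_add]
        refine Submodule.add_mem _ ?_ ?_
        · rw [mul_comm, mul_smul]; exact Submodule.smul_mem _ _ h1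
        · rw [mul_smul]; exact Submodule.smul_mem _ _ h2
      zero_mem' := ⟨1, one_ne_zero, by simp⟩
      smul_mem' := by
        rintro a b ⟨d, hd, h⟩
        exact ⟨d, hd, by rw [smul_comm]; exact Submodule.smul_mem _ _ h⟩ }
  obtain ⟨d, hd0, hd⟩ := exists_denom (Submodule.span R {u}) ω₁ (IsNoetherian.noetherian _)
    (fun w hw => hw)
  have hinj : Function.Injective (LinearMap.toSpanSingleton R ω u) := by
    rw [injective_iff_map_eq_zero]
    intro a ha
    by_contra h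
    exact hu (htf a u h ha)
  let ψ : ω₁ →ₗ[R] R := (LinearEquiv.ofInjective _ hinj).symm.toLinearMap.comp
    (LinearMap.codRestrict _ (d • ω₁.subtype) (fun w => by
      rw [← LinearMap.span_singleton_eq_range]; exact hd w w.2))
  have hψ : ∀ w : ω₁, ψ w • u = d • (w : ω) := by
    intro w
    have := congrArg Subtype.val ((LinearEquiv.ofInjective _ hinj).apply_symm_apply
      (LinearMap.codRestrict _ (d • ω₁.subtype) (fun w => by
        rw [← LinearMap.span_singleton_eq_range]; exact hd w w.2) w))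
    exact this
  have hψi : Function.Injective ψ := by
    rw [injective_iff_map_eq_zero]
    intro w hw
    have := hψ w
    rw [hw, zero_smul] at this
    exact Subtype.ext (htf d w hd0 this.symm)
  let K : Ideal R := LinearMap.range ψ
  have hK : K ≠ ⊥ := by
    intro h
    have h3 : ψ ⟨u, 1, one_ne_zero, by simp⟩ ∈ K := ⟨_, rfl⟩
    rw [h, Ideal.mem_bot] at h3
    exact hu (congrArg Subtype.val ((injective_iff_map_eq_zero ψ).1 hψi _ h3))
  let e : ω₁ ≃ₗ[R] K := LinearEquiv.ofInjective ψ hψi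
  let φ : K →ₗ[R] ω := ω₁.subtype.comp e.symm.toLinearMap
  have hφ : Function.Injective φ := ω₁.injective_subtype.comp e.symm.injective
  obtain ⟨c, hc, hc0⟩ := Submodule.exists_mem_ne_zero_of_ne_bot hm
  have hcf : ell (Ideal.span {c}) ≠ ⊤ := hfin _ (by simpa using hc0)
  set V := LinearMap.range (c • (LinearMap.id : ω →ₗ[R] ω)) with hV
  have hcomap : V.comap φ = Submodule.comap K.subtype (Ideal.span {c} * K) := by
    ext z
    obtain ⟨w, rfl⟩ := e.surjective z
    have e1 : φ (e w) = w := by simp [φ]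
    rw [Submodule.mem_comap, Submodule.mem_comap, e1]
    change _ ↔ ψ w ∈ _
    rw [Ideal.mem_span_singleton_mul]
    constructor
    · rintro ⟨w', hw'⟩
      have hw2 : c • w' = w := hw'
      have h3 : w' ∈ ω₁ := ⟨d * c, mul_ne_zero hd0 hc0, by rw [mul_smul, hw2]; exact hd w w.2⟩
      refine ⟨ψ ⟨w', h3⟩, ⟨_, rfl⟩, ?_⟩
      rw [← smul_eq_mul, ← map_smul]
      congr 1
      exact Subtype.ext hw2
    · rintro ⟨_, ⟨w', rfl⟩, h⟩
      rw [← smul_eq_mul, ← map_smul, hψi.eq_iff] at h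
      exact ⟨w', congrArg Subtype.val h⟩
  have h4 := len_omega h1 c hc0 hcf
  rw [← hV, length_quot_map φ V, hcomap, len_quot_ideal K (hfin K hK) c hc0] at h4
  have h5 : Module.length R (ω ⧸ (LinearMap.range φ ⊔ V)) = 0 := by
    have h6 : ell (Ideal.span {c}) + Module.length R (ω ⧸ (LinearMap.range φ ⊔ V)) ≤
      ell (Ideal.span {c}) + 0 := by rwa [add_zero]
    exact nonpos_iff_eq_zero.1 ((ENat.add_le_add_iff_left hcf).1 h6)
  rw [Module.length_eq_zero_iff, Submodule.Quotient.subsingleton_iff] at h5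
  have h7 : (⊤ : Submodule R ω) ≤ LinearMap.range φ := by
    apply Submodule.le_of_le_smul_of_le_jacobson_bot (I := maximalIdeal R)
      (IsNoetherian.noetherian _) (IsLocalRing.maximalIdeal_le_jacobson _)
    rw [← h5]
    refine sup_le_sup_left ?_ _
    rintro _ ⟨w, rfl⟩
    rw [h5]
    exact Submodule.smul_mem_smul hc Submodule.mem_top
  exact ⟨K, hK, ⟨LinearEquiv.ofBijective φ ⟨hφ, LinearMap.range_eq_top.1 (top_le_iff.1 h7)⟩⟩⟩

theorem ns_ideal (hfin : ∀ J : Ideal R, J ≠ ⊥ → ell J ≠ ⊤)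
    (h1 : Module.length R (EE (ModuleCat.of R ω) (ResidueField R) 1) = 1)
    (h2 : Module.length R (EE (ModuleCat.of R ω) (ResidueField R) 2) = 0)
    (K : Ideal R) (e : K ≃ₗ[R] ω) (A A' : Ideal R) (h : A < A') (c : R) (hc : c ∈ A)
    (hc0 : c ≠ 0) :
    ∃ r : R, (∀ z ∈ A, r * z ∈ Ideal.span {c} * K) ∧
      ¬ ∀ z ∈ A', r * z ∈ Ideal.span {c} * K := by
  obtain ⟨U, hAU, hU⟩ := exists_le_covBy_of_lt h
  obtain ⟨f, hf⟩ := ns_cover hfin h1 h2 U A' hU
  let f' : U →ₗ[R] K := e.symm.toLinearMap.comp f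
  have key : ∀ z : U, (f' ⟨c, hAU hc⟩ : R) * z = c * f' z := by
    intro z
    have e1 : (z : R) • (⟨c, hAU hc⟩ : U) = c • z := by ext; simp [mul_comm]
    have e2 := congrArg (fun t => (f' t : R)) e1
    simp only [map_smul] at e2
    rw [mul_comm]; exact e2
  refine ⟨f' ⟨c, hAU hc⟩, fun z hz => ?_, fun hall => ?_⟩
  · rw [key ⟨z, hAU hz⟩]
    exact Ideal.mul_mem_mul (Ideal.mem_span_singleton_self c) (f' _).2
  · let φ : K →ₗ[R] R := (LinearMap.mulLeft R c).comp K.subtype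
    have hφ : Function.Injective φ := fun a b h => Subtype.ext (mul_left_cancel₀ hc0 h)
    let ψ : A' →ₗ[R] R := (LinearMap.mulLeft R (f' ⟨c, hAU hc⟩ : R)).comp A'.subtype
    have hr : ∀ z, ψ z ∈ LinearMap.range φ := by
      intro z
      obtain ⟨k, hk, hk2⟩ := Ideal.mem_span_singleton_mul.1 (hall z z.2)
      exact ⟨⟨k, hk⟩, hk2⟩
    let g0 : A' →ₗ[R] K := (LinearEquiv.ofInjective φ hφ).symm.toLinearMap.comp
      (LinearMap.codRestrict _ ψ hr)
    have hg0 : ∀ z, c * g0 z = (f' ⟨c, hAU hc⟩ : R) * z := by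
      intro z
      exact congrArg Subtype.val ((LinearEquiv.ofInjective φ hφ).apply_symm_apply
        (LinearMap.codRestrict _ ψ hr z))
    apply hf (e.toLinearMap.comp g0)
    ext z
    have e3 : g0 (Submodule.inclusion hU.le z) = f' z := by
      apply Subtype.ext
      apply mul_left_cancel₀ hc0
      rw [hg0, ← key]; rfl
    simp [e3, f']

omit [IsLocalRing R] [IsNoetherianRing R] in
theorem hom_equiv (K I : Ideal R) (c : R) (hc : c ∈ I) (hc0 : c ≠ 0) :
    Nonempty ((I →ₗ[R] K) ≃ₗ[R] ((Ideal.span {c} * K).colon (I : Set R) : Ideal R)) := by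
  let ev : (I →ₗ[R] K) →ₗ[R] R := K.subtype.comp (LinearMap.applyₗ (⟨c, hc⟩ : I))
  have key : ∀ (f : I →ₗ[R] K) (z : I), ev f * z = c * f z := by
    intro f z
    have e1 : (z : R) • (⟨c, hc⟩ : I) = c • z := by ext; simp [mul_comm]
    have e2 := congrArg (fun t => (f t : R)) e1
    simp only [map_smul] at e2
    rw [mul_comm]; exact e2
  have hinj : Function.Injective ev := by
    rw [injective_iff_map_eq_zero]
    intro f hf
    ext z
    have := key f z
    rw [hf, zero_mul] at this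
    exact (mul_eq_zero.1 this.symm).resolve_left hc0
  refine ⟨(LinearEquiv.ofInjective ev hinj).trans (LinearEquiv.ofEq _ _ ?_)⟩
  ext r
  rw [Submodule.mem_colon]
  constructor
  · rintro ⟨f, rfl⟩ z hz
    rw [smul_eq_mul, key f ⟨z, hz⟩]
    exact Ideal.mul_mem_mul (Ideal.mem_span_singleton_self c) (f _).2
  · intro hall
    let φ : K →ₗ[R] R := (LinearMap.mulLeft R c).comp K.subtype
    have hφ : Function.Injective φ := fun a b h => Subtype.ext (mul_left_cancel₀ hc0 h)
    let ψ : I →ₗ[R] R := (LinearMap.mulLeft R r).comp I.subtype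
    have hr : ∀ z, ψ z ∈ LinearMap.range φ := by
      intro z
      obtain ⟨k, hk, hk2⟩ := Ideal.mem_span_singleton_mul.1 (hall z z.2)
      exact ⟨⟨k, hk⟩, hk2⟩
    let g0 : I →ₗ[R] K := (LinearEquiv.ofInjective φ hφ).symm.toLinearMap.comp
      (LinearMap.codRestrict _ ψ hr)
    have hg0 : ∀ z, c * g0 z = r * z := by
      intro z
      exact congrArg Subtype.val ((LinearEquiv.ofInjective φ hφ).apply_symm_apply
        (LinearMap.codRestrict _ ψ hr z))
    refine ⟨g0, ?_⟩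
    apply mul_left_cancel₀ hc0
    rw [mul_comm c r]
    exact hg0 ⟨c, hc⟩

theorem final [Module.Finite R ω]
    (h0 : Module.length R (EE (ModuleCat.of R ω) (ResidueField R) 0) = 0)
    (h1 : Module.length R (EE (ModuleCat.of R ω) (ResidueField R) 1) = 1)
    (h2 : Module.length R (EE (ModuleCat.of R ω) (ResidueField R) 2) = 0)
    (N : ℕ) (hH : ∀ n, N ≤ n → ell (maximalIdeal R ^ (n + 1)) =
      ell (maximalIdeal R ^ n) + Module.finrank (ResidueField R) (CotangentSpace R))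
    (I : Ideal R) (hI : I ≠ ⊥)
    (htf : ∀ (r : R) (t : I ⊗[R] (I →ₗ[R] ω)), r ≠ 0 → r • t = 0 → t = 0)
    (hm : maximalIdeal R ≠ ⊥) (hfin : ∀ J : Ideal R, J ≠ ⊥ → ell J ≠ ⊤) :
    Nonempty (I ≃ₗ[R] R) ∨ Nonempty (I ≃ₗ[R] ω) := by
  obtain ⟨K, hK, ⟨e⟩⟩ := exists_ideal hm hfin h0 h1
  obtain ⟨c, hc, hc0⟩ := Submodule.exists_mem_ne_zero_of_ne_bot hI
  obtain ⟨g⟩ := hom_equiv K I c hc hc0
  let τ := TensorProduct.congr (LinearEquiv.refl R I)
    ((LinearEquiv.congrRight (M := I) e).symm.trans g)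
  have := main_ideal hm hfin _
    (fun A hA => mu_stable hm hfin _ N hH ell_sq A hA) K hK
    (ns_ideal hfin h1 h2 K e) I c hc hc0 (fun r t hr ht => by
      obtain ⟨s, rfl⟩ := τ.surjective t
      rw [← map_smul, τ.map_eq_zero_iff] at ht
      rw [htf r s hr ht, map_zero])
  rcases this with h | ⟨⟨f⟩⟩
  · exact Or.inl h
  · exact Or.inr ⟨f.trans e⟩

omit [IsDomain R] [IsNoetherianRing R] in
lemma max_ne_bot (hdim : ringKrullDim R = 1) : maximalIdeal R ≠ ⊥ := by
  intro h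
  have := ringKrullDim_eq_zero_of_isField ((isField_iff_maximalIdeal_eq).2 h)
  rw [hdim] at this
  exact absurd this (by simp)

omit [IsLocalRing R] in
lemma ell_fin (hdim : ringKrullDim R = 1) (J : Ideal R) (hJ : J ≠ ⊥) : ell J ≠ ⊤ := by
  have : Ring.KrullDimLE 1 R := Ring.krullDimLE_iff.2 (by rw [hdim]; simp)
  obtain ⟨c, hc, hc0⟩ := Submodule.exists_mem_ne_zero_of_ne_bot hJ
  exact ne_top_of_le_ne_top (Ring.ord_ne_top (mem_nonZeroDivisors_of_ne_zero hc0))
    (ell_anti ((Ideal.span_singleton_le_iff_mem _).2 hc))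

end Pool.Agent.H.MP_9a1833_al
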